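import Pool.Agent.H341.MA.Main
import Pool.Graph.R_pool_sql_team_seeded_2aa45f1a.Q138.PD.Tors

/-!
# Serre's question for groups acting geometrically on mediangle graphs

For a group `G` acting geometrically (properly and cocompactly) on a mediangle graph: `G` is of type
FP if and only if it is torsion-free if and only if it is of type FF.

The definitions (`Mediangle`, `GeometricAction`) are in `Pool/Agent/H341/MA/Defs.lean`. Groups of type
FP are torsion-free (library). For a torsion-free `G` the cells of the graph (the finite gated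
subgraphs in which any two non-adjacent neighbours of a vertex span an even convex cycle) give a
free resolution: the chain complex of the poset of cells is acyclic and `G` acts freely on it with
finitely many orbits of chains (`mediangle_main`).
-/

set_option autoImplicit false

namespace Pool.Agent.Results.MP_d19827_al.MediangleGroups

open Pool.Agent.H341.MA

/-- type FP: the trivial module `ℤ` has a finite resolution by finitely generated projective
`ℤG`-modules -/
def TypeFP (G : Type) [Group G] : Prop :=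
  ∃ (P : ℕ → Type) (_ : ∀ i, AddCommGroup (P i)) (_ : ∀ i, Module (MonoidAlgebra ℤ G) (P i))
    (d : ∀ i, P (i + 1) →ₗ[MonoidAlgebra ℤ G] P i) (ε : P 0 →+ ℤ) (n : ℕ),
    (∀ i, Module.Finite (MonoidAlgebra ℤ G) (P i)) ∧
    (∀ i, Module.Projective (MonoidAlgebra ℤ G) (P i)) ∧
    (∀ i, n < i → Subsingleton (P i)) ∧
    (∀ (g : G) (x : P 0), ε (MonoidAlgebra.of ℤ G g • x) = ε x) ∧
    Function.Surjective ε ∧
    (∀ x : P 0, ε x = 0 ↔ x ∈ LinearMap.range (d 0)) ∧
    (∀ i, LinearMap.range (d (i + 1)) = LinearMap.ker (d i))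

/-- type FF: the trivial module `ℤ` has a finite resolution by finitely generated free
`ℤG`-modules -/
def TypeFF (G : Type) [Group G] : Prop :=
  ∃ (P : ℕ → Type) (_ : ∀ i, AddCommGroup (P i)) (_ : ∀ i, Module (MonoidAlgebra ℤ G) (P i))
    (d : ∀ i, P (i + 1) →ₗ[MonoidAlgebra ℤ G] P i) (ε : P 0 →+ ℤ) (n : ℕ),
    (∀ i, Module.Finite (MonoidAlgebra ℤ G) (P i)) ∧
    (∀ i, Module.Free (MonoidAlgebra ℤ G) (P i)) ∧
    (∀ i, n < i → Subsingleton (P i)) ∧
    (∀ (g : G) (x : P 0), ε (MonoidAlgebra.of ℤ G g • x) = ε x) ∧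
    Function.Surjective ε ∧
    (∀ x : P 0, ε x = 0 ↔ x ∈ LinearMap.range (d 0)) ∧
    (∀ i, LinearMap.range (d (i + 1)) = LinearMap.ker (d i))

theorem fp_of_ff (G : Type) [Group G] (h : TypeFF G) : TypeFP G := by
  obtain ⟨P, i1, i2, d, ε, n, h1, h2, h3, h4, h5, h6, h7⟩ := h
  exact ⟨P, i1, i2, d, ε, n, h1, fun i => by
    have := h2 i
    infer_instance, h3, h4, h5, h6, h7⟩

theorem tf_of_fp (G : Type) [Group G] (h : TypeFP G) : ∀ g : G, g ≠ 1 → ¬ IsOfFinOrder g := by
  obtain ⟨P, i1, i2, d, ε, n, h1, h2, h3, h4, h5, h6, h7⟩ := h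
  intro g hg hfin
  exact hg (Pool.Agent.Q138.PD.torsion_free d ε n h2 h3 h5 h4 h6 (fun i => (h7 i).symm) g hfin)

theorem ff_of_typeF (G : Type) [Group G] (h : TypeF G) : TypeFF G := by
  obtain ⟨-, k, ⟨d, ε, h1, h2, h3, h4⟩, N, hN⟩ := h
  refine ⟨fun i => Fin (k i) → MonoidAlgebra ℤ G, inferInstance, inferInstance, d, ε, N,
    fun i => inferInstance, fun i => inferInstance, ?_, h1, h2, h3, h4⟩
  intro i hi
  have h0 := hN i (by omega)
  have : IsEmpty (Fin (k i)) := by
    rw [h0]
    infer_instance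
  infer_instance

/-- A group which acts geometrically on a mediangle graph is of type FP if and only if it is
torsion-free, and then it is of type FF. -/
theorem result (V : Type) (X : SimpleGraph V) (G : Type) [Group G] [MulAction G V]
    (hX : Mediangle X) (hG : GeometricAction X G) :
    (TypeFP G ↔ ∀ g : G, g ≠ 1 → ¬ IsOfFinOrder g) ∧ (TypeFP G → TypeFF G) := by
  have key : (∀ g : G, g ≠ 1 → ¬ IsOfFinOrder g) → TypeFF G := fun h =>
    ff_of_typeF G ((mediangle_main V X G hX hG).2 h)
  exact ⟨⟨tf_of_fp G, fun h => fp_of_ff G (key h)⟩, fun h => key (tf_of_fp G h)⟩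

end Pool.Agent.Results.MP_d19827_al.MediangleGroups
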