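import Pool.Agent.H320.SP.Final

/-!
# Serre's question for one-relator products with left-orderable coefficient groups

Let `A`, `B` be groups, `A₀ ≤ A` and `B₀ ≤ B` left-orderable subgroups, `r` an element of the subgroup of the free
product `A * B` which is generated by `A₀` and `B₀`, not conjugate in `A * B` to an element of `A` or of `B`, and
`G = (A * B) / ⟨⟨r⟩⟩`. Then `G` is of type FP if and only if `A` and `B` are of type FP and `r` is not a proper power
(of an element of the subgroup generated by `A₀`, `B₀`); in this case `G` is of type FF if `A` and `B` are. So Serre's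
question has a positive answer for `G` if it has for `A` and `B`.

Outline of the proof. By the Freiheitssatz and the asphericity theorem for one-relator products of left-orderable
groups (`Pool.Agent.H341.FS`, project of helper341), with coefficients extended by amalgams, `A` and `B` embed in
`G`, and for relators which are not proper powers `r` freely generates the relation module of
`A₀ * B₀ → (A₀ * B₀) / ⟨⟨r⟩⟩`. For any group `G = (A * B) / ⟨⟨r⟩⟩` let `J_A`, `J_B` be the left ideals of `ℤG`
generated by the `a - 1`, `b - 1`, and `ρ = ∂_A(r)` the value at `r` of the derivation `A * B → ℤG` with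
`∂_A(a) = a - 1`, `∂_A(b) = 0`. Then `J_A ∩ J_B = ℤG ρ`. If `A` and `B` embed in `G` the kernel of
`(∂_A, ∂_B)` on the normal closure `N` of `r` is `[N, N]` (Magnus embedding), and so `ρ` is not a right zero divisor if
`r` is aspherical, which is inherited when the coefficient groups are enlarged. So there is an exact sequence
`0 → ℤG → J_A ⊕ J_B → I_G → 0`. Now `J_A` is induced from the augmentation ideal of `A`, and it remains to use that
modules with finite projective (free) resolutions have the two-out-of-three property (library: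
`R_pool_sql_team_seeded_efc1946e.K1H16.HE.TT`), are preserved by induction, that finite projective resolutions pass
to direct summands, and that they descend along `ℤA ⊆ ℤG` for submodules of free modules. Groups of type FP are
torsion-free, which excludes proper powers.

The induction and descent lemmas (`SP_IND`, `SP_DES`) are by helper399 and helper356.
-/

set_option autoImplicit false

namespace Pool.Agent.Results.MP_d19827_al.OneRelatorProducts

open Monoid

/-- type FP: the trivial module `ℤ` has a finite resolution by finitely generated projective `ℤG`-modules -/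
def TypeFP (G : Type) [Group G] : Prop :=
  ∃ (P : ℕ → Type) (_ : ∀ i, AddCommGroup (P i)) (_ : ∀ i, Module (MonoidAlgebra ℤ G) (P i))
    (d : ∀ i, P (i + 1) →ₗ[MonoidAlgebra ℤ G] P i) (ε : P 0 →+ ℤ) (n : ℕ),
    (∀ i, Module.Finite (MonoidAlgebra ℤ G) (P i)) ∧
    (∀ i, Module.Projective (MonoidAlgebra ℤ G) (P i)) ∧
    (∀ i, n < i → Subsingleton (P i)) ∧
    (∀ (g : G) (x : P 0), ε (MonoidAlgebra.of ℤ G g • x) = ε x) ∧
    Function.Surjective ε ∧
    (∀ x : P 0, ε x = 0 ↔ x ∈ LinearMap.range (d 0)) ∧
    (∀ i, LinearMap.range (d (i + 1)) = LinearMap.ker (d i))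

/-- type FF: the trivial module `ℤ` has a finite resolution by finitely generated free `ℤG`-modules -/
def TypeFF (G : Type) [Group G] : Prop :=
  ∃ (P : ℕ → Type) (_ : ∀ i, AddCommGroup (P i)) (_ : ∀ i, Module (MonoidAlgebra ℤ G) (P i))
    (d : ∀ i, P (i + 1) →ₗ[MonoidAlgebra ℤ G] P i) (ε : P 0 →+ ℤ) (n : ℕ),
    (∀ i, Module.Finite (MonoidAlgebra ℤ G) (P i)) ∧
    (∀ i, Module.Free (MonoidAlgebra ℤ G) (P i)) ∧
    (∀ i, n < i → Subsingleton (P i)) ∧
    (∀ (g : G) (x : P 0), ε (MonoidAlgebra.of ℤ G g • x) = ε x) ∧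
    Function.Surjective ε ∧
    (∀ x : P 0, ε x = 0 ↔ x ∈ LinearMap.range (d 0)) ∧
    (∀ i, LinearMap.range (d (i + 1)) = LinearMap.ker (d i))

/-- left-orderable: there is a linear order which is invariant under left multiplication -/
def LeftOrderable (G : Type) [Group G] : Prop :=
  ∃ lo : LinearOrder G, ∀ a b c : G, lo.lt a b → lo.lt (c * a) (c * b)

/-- the subgroup of `A * B` generated by `A₀ ≤ A` and `B₀ ≤ B` -/
abbrev CoefSub {A B : Type} [Group A] [Group B] (A₀ : Subgroup A) (B₀ : Subgroup B) : Subgroup (Coprod A B) :=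
  A₀.map (Coprod.inl : A →* Coprod A B) ⊔ B₀.map (Coprod.inr : B →* Coprod A B)

/-- **Serre's question for one-relator products with left-orderable coefficient groups** -/
theorem result (A B : Type) [Group A] [Group B] (A₀ : Subgroup A) (B₀ : Subgroup B)
    (hA₀ : LeftOrderable A₀) (hB₀ : LeftOrderable B₀) (r : Coprod A B) (hr : r ∈ CoefSub A₀ B₀)
    -- `r` is not conjugate to an element of a factor
    (hrA : ∀ (g : Coprod A B) (a : A), r ≠ g * Coprod.inl a * g⁻¹)
    (hrB : ∀ (g : Coprod A B) (b : B), r ≠ g * Coprod.inr b * g⁻¹) :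
    -- 1. type FP
    (TypeFP (Coprod A B ⧸ Subgroup.normalClosure ({r} : Set (Coprod A B))) ↔
      TypeFP A ∧ TypeFP B ∧ ∀ s ∈ CoefSub A₀ B₀, ∀ n : ℕ, 2 ≤ n → s ^ n ≠ r) ∧
    -- 2. type FF
    (TypeFF A → TypeFF B → (∀ s ∈ CoefSub A₀ B₀, ∀ n : ℕ, 2 ≤ n → s ^ n ≠ r) →
      TypeFF (Coprod A B ⧸ Subgroup.normalClosure ({r} : Set (Coprod A B)))) ∧
    -- 3. Serre's question
    ((TypeFP A → TypeFF A) → (TypeFP B → TypeFF B) →
      TypeFP (Coprod A B ⧸ Subgroup.normalClosure ({r} : Set (Coprod A B))) →
      TypeFF (Coprod A B ⧸ Subgroup.normalClosure ({r} : Set (Coprod A B)))) := by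
  obtain ⟨h1, h2⟩ := Pool.Agent.H320.SP.main A₀ B₀ hA₀ hB₀ r hr hrA hrB
  refine ⟨h1, h2, fun hA hB hG => ?_⟩
  obtain ⟨h3, h4, h5⟩ := h1.1 hG
  exact h2 (hA h3) (hB h4) h5

end Pool.Agent.Results.MP_d19827_al.OneRelatorProducts
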